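import Pool.Agent.Results.MP_42948a_nt.MultiplicativeValues

/-!
# The number of the moduli which do not satisfy Chowla's bound in very short intervals of classes

The property `Good` and the count are those of the starting files `ShortClassIntervals`, `MultiplicativeValues` of
MP_42948a_nt.
-/

set_option autoImplicit false

namespace Pool.Agent.T9h59.CH

open Finset
open Pool.Agent.Results.MP_42948a_nt.MultiplicativeValues (Good dyadic)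

theorem count (ε η : ℝ) (hε : 0 < ε) (hε1 : ε < 1) (hη : 0 < η) (hη1 : η < 1) :
    ∃ c κ : ℝ, 0 < c ∧ 0 < κ ∧ κ < 1 ∧ ∀ β : ℝ, 0 ≤ β → β ≤ 1 → ∀ δ : ℝ, 0 < δ → ∃ C : ℝ, ∀ X : ℕ, 1 ≤ X →
      ({q : ℕ | 1 ≤ q ∧ q ≤ X ∧ True ∧ ¬ Good ε η c β q}.ncard : ℝ) ≤ C * (X : ℝ) ^ (1 - κ + δ) := by
  classical
  obtain ⟨c, κ₀, hc, hκ₀, D₀, h⟩ := Pool.Agent.Results.MP_42948a_nt.ShortClassIntervals.result ε η hε hε1 hη hη1
  obtain ⟨κ, hκ⟩ : ∃ κ, κ = min κ₀ 1 := ⟨_, rfl⟩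
  have hκ0 : 0 < κ := by rw [hκ]; exact lt_min hκ₀ one_pos
  have hκ1 : κ ≤ 1 := by rw [hκ]; exact min_le_right _ _
  have hκκ : κ ≤ κ₀ := by rw [hκ]; exact min_le_left _ _
  refine ⟨c, κ / 2, hc, by linarith, by linarith, fun β hβ0 hβ1 δ hδ => ?_⟩
  refine ⟨2 * ((D₀ + 1 : ℕ) : ℝ) + 2 + 8 / κ, fun X hX => ?_⟩
  have hX1 : (1 : ℝ) ≤ X := by exact_mod_cast hX
  have h2 := dyadic (S := {d : ℕ | ¬ Good ε η c β d}) hκ0 hκ1 (D₀ := D₀ + 1) (fun D hD => by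
    obtain ⟨E, hE1, hE2⟩ := h D (by omega) β hβ0 hβ1
    have hD1 : (1 : ℝ) ≤ D := by
      have : 1 ≤ D := by omega
      exact_mod_cast this
    refine ⟨E, hE1.trans (Real.rpow_le_rpow_of_exponent_le hD1 (by linarith)), fun d hd1 hd2 hd3 hd4 => ?_⟩
    exact hd4 (hE2 d hd1 hd2 hd3)) X hX
  have e : {q : ℕ | 1 ≤ q ∧ q ≤ X ∧ True ∧ ¬ Good ε η c β q} =
      (((Icc 1 X).filter (fun v => v ∈ {d : ℕ | ¬ Good ε η c β d}) : Finset ℕ) : Set ℕ) := by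
    ext q
    simp only [Set.mem_ofPred_eq, coe_filter, mem_Icc]
    tauto
  rw [e, Set.ncard_coe_finset]
  refine le_trans (le_of_eq ?_) (h2.trans (mul_le_mul_of_nonneg_left
    (Real.rpow_le_rpow_of_exponent_le hX1 (y := 1 - κ / 2) (z := 1 - κ / 2 + δ) (by linarith)) (by positivity)))
  congr!

end Pool.Agent.T9h59.CH
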